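import Pool.Agent.Q9.TwProLie

/-!
# Locally compact abelian groups are kernels of ordinary representations

For a commutative topological group `A` let `b : A × ℕ → A` be the first projection. The group
`Tw b` is the central extension of a discrete free abelian group by `A` whose underlying space is
`A × (discrete)`, and its common kernel of ordinary representations is exactly `A`.
-/

namespace Pool.Agent.Results.MP_607283_al.AbelianKernels

open Q9.KO

universe u

/-- Every Hausdorff abelian topological group `A` is isomorphic, as a topological group, to `KO G`
for a Hausdorff topological group `G` which is locally compact if `A` is locally compact and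
pro-Lie if `A` is pro-Lie. -/
theorem result (A : Type u) [CommGroup A] [TopologicalSpace A] [IsTopologicalGroup A]
    [T2Space A] :
    ∃ (G : Type u) (_ : Group G) (_ : TopologicalSpace G) (_ : IsTopologicalGroup G),
      T2Space G ∧ (LocallyCompactSpace A → LocallyCompactSpace G) ∧ (IsProLie A → IsProLie G) ∧
        Nonempty (A ≃ₜ* KO G) := by
  have hb : ∀ a : A, ∃ f : ℕ → A × ℕ, Function.Injective f ∧
      ∀ k, (Prod.fst : A × ℕ → A) (f k) = a :=
    fun a => ⟨fun k => (a, k), fun k l h => congrArg Prod.snd h, fun _ => rfl⟩
  exact ⟨Tw (Prod.fst : A × ℕ → A), inferInstance, inferInstance, inferInstance,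
    inferInstance, fun _ => inferInstance, Tw.isProLie _, ⟨Tw.equivKO _ hb⟩⟩

end Pool.Agent.Results.MP_607283_al.AbelianKernels
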